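import Mathlib

/-!
# Operational bases are generalized summation bases
-/

open Filter Topology

namespace Pool.Agent.Results.MP_59cc96_an.OperationalIsGenSummation

variable {𝕜 E : Type*} [RCLike 𝕜] [NormedAddCommGroup E] [NormedSpace 𝕜 E]

/-- The span of the first `n` vectors `x 0, …, x (n - 1)`. -/
def P (𝕜 : Type*) {E : Type*} [RCLike 𝕜] [NormedAddCommGroup E] [NormedSpace 𝕜 E]
    (x : ℕ → E) (n : ℕ) : Submodule 𝕜 E :=
  Submodule.span 𝕜 (x '' {i | i < n})

theorem mem_P {x : ℕ → E} {n i : ℕ} (h : i < n) : x i ∈ P 𝕜 x n :=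
  Submodule.subset_span ⟨i, h, rfl⟩

/-- The vector `∑_{i<n} α i • x i`, as an element of the span of the first `n` vectors. -/
def psum (x : ℕ → E) (α : ℕ → 𝕜) (n : ℕ) : P 𝕜 x n :=
  ⟨∑ i ∈ Finset.range n, α i • x i,
    Submodule.sum_mem _ fun _ hi => Submodule.smul_mem _ _ (mem_P (Finset.mem_range.1 hi))⟩

/-- The pair `(x, f)` is a complete minimal sequence with its functionals. -/
structure CompleteMinimal (x : ℕ → E) (f : ℕ → StrongDual 𝕜 E) : Prop where
  dense : Dense (Submodule.span 𝕜 (Set.range x) : Set E)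
  biorth : ∀ i j, f i (x j) = if i = j then 1 else 0

/-- Operational basis: complete minimal, and `v n (s n y) → y` for some endomorphisms `v n` of
the spans of the first `n` vectors, `s n` the partial sum operators. -/
def IsOperationalBasis (𝕜 : Type*) {E : Type*} [RCLike 𝕜] [NormedAddCommGroup E]
    [NormedSpace 𝕜 E] (x : ℕ → E) : Prop :=
  ∃ f : ℕ → StrongDual 𝕜 E, CompleteMinimal x f ∧
    ∃ v : ∀ n, P 𝕜 x n →ₗ[𝕜] P 𝕜 x n,
      ∀ y : E, Tendsto (fun n => (v n (psum x (fun i => f i y) n) : E)) atTop (𝓝 y)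

/-- Generalized summation basis with respect to the endomorphisms `v n`. In (a) the vector `x i`
lies in the span of the first `n` vectors only for `n ≥ i + 1`, hence the shift. -/
def IsGeneralizedSummationBasis (x : ℕ → E) (v : ∀ n, P 𝕜 x n →ₗ[𝕜] P 𝕜 x n) : Prop :=
  (∀ i, Tendsto (fun n => (v (i + 1 + n) ⟨x i, mem_P (by omega)⟩ : E)) atTop (𝓝 (x i))) ∧
  ∀ y : E, ∃! α : ℕ → 𝕜, Tendsto (fun n => (v n (psum x α n) : E)) atTop (𝓝 y)

/-- The coefficient of `psum` under the `j`-th functional. -/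
theorem coeff_psum {x : ℕ → E} {f : ℕ → StrongDual 𝕜 E} (h : CompleteMinimal x f)
    (α : ℕ → 𝕜) {j n : ℕ} (hj : j < n) : f j (psum x α n : E) = α j := by
  simp only [psum, map_sum, map_smul, h.biorth, smul_eq_mul, mul_ite, mul_one, mul_zero]
  rw [Finset.sum_ite_eq, if_pos (Finset.mem_range.2 hj)]

/-- Truncation of an element of `P N` to `P n`. -/
noncomputable def trunc (x : ℕ → E) (f : ℕ → StrongDual 𝕜 E) (N n : ℕ) :
    P 𝕜 x N →ₗ[𝕜] P 𝕜 x n where
  toFun y := psum x (fun i => f i (y : E)) n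
  map_add' := by
    intro a b
    apply Subtype.ext
    simp [psum, add_smul, Finset.sum_add_distrib]
  map_smul' := by
    intro c a
    apply Subtype.ext
    simp [psum, Finset.smul_sum, smul_smul]

theorem trunc_psum {x : ℕ → E} {f : ℕ → StrongDual 𝕜 E} (h : CompleteMinimal x f)
    (α : ℕ → 𝕜) {N n : ℕ} (hn : n ≤ N) : trunc x f N n (psum x α N) = psum x α n := by
  apply Subtype.ext
  change ∑ i ∈ Finset.range n, f i (psum x α N : E) • x i = ∑ i ∈ Finset.range n, α i • x i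
  refine Finset.sum_congr rfl fun i hi => ?_
  rw [coeff_psum h α ((Finset.mem_range.1 hi).trans_le hn)]

theorem P_mono {x : ℕ → E} {n N : ℕ} (h : n ≤ N) : P 𝕜 x n ≤ P 𝕜 x N :=
  Submodule.span_mono (Set.image_mono fun _ hi => lt_of_lt_of_le hi h)

/-- The compression of `v n` to `P N`, `N ≥ n`. -/
noncomputable def comp (x : ℕ → E) (f : ℕ → StrongDual 𝕜 E)
    (v : ∀ n, P 𝕜 x n →ₗ[𝕜] P 𝕜 x n) (N n : ℕ) (h : n ≤ N) : P 𝕜 x N →ₗ[𝕜] P 𝕜 x N :=
  (Submodule.inclusion (P_mono h)).comp ((v n).comp (trunc x f N n))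

theorem comp_psum {x : ℕ → E} {f : ℕ → StrongDual 𝕜 E} (hx : CompleteMinimal x f)
    (v : ∀ n, P 𝕜 x n →ₗ[𝕜] P 𝕜 x n) (α : ℕ → 𝕜) {N n : ℕ} (h : n ≤ N) :
    (comp x f v N n h (psum x α N) : E) = v n (psum x α n) := by
  simp only [comp, LinearMap.comp_apply, trunc_psum hx α h, Submodule.coe_inclusion]

/-- The index that is tested at stage `n`; every index occurs infinitely often. -/
def jj (n : ℕ) : ℕ := (Nat.unpair n).1

/-- The modified endomorphisms. -/
noncomputable def v' (x : ℕ → E) (f : ℕ → StrongDual 𝕜 E)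
    (v : ∀ n, P 𝕜 x n →ₗ[𝕜] P 𝕜 x n) (N : ℕ) : P 𝕜 x N →ₗ[𝕜] P 𝕜 x N :=
  if hN : N % 2 = 0 then comp x f v N (N / 2) (Nat.div_le_self _ _)
  else
    comp x f v N (N / 2) (Nat.div_le_self _ _) +
      LinearMap.smulRight
        (((f (jj (N / 2)) : E →ₗ[𝕜] 𝕜).comp (P 𝕜 x N).subtype).comp
          (LinearMap.id - comp x f v N (N / 2) (Nat.div_le_self _ _)))
        ((((‖f (jj (N / 2))‖ * ‖x (jj (N / 2))‖)⁻¹ : ℝ) : 𝕜) •
          (⟨x (jj (N / 2)), mem_P (by
            have := Nat.unpair_left_le (N / 2)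
            unfold jj
            omega)⟩ : P 𝕜 x N))

theorem v'_even {x : ℕ → E} {f : ℕ → StrongDual 𝕜 E} (hx : CompleteMinimal x f)
    (v : ∀ n, P 𝕜 x n →ₗ[𝕜] P 𝕜 x n) (α : ℕ → 𝕜) {N : ℕ} (hN : N % 2 = 0) :
    (v' x f v N (psum x α N) : E) = v (N / 2) (psum x α (N / 2)) := by
  unfold v'
  rw [dif_pos hN, comp_psum hx]

theorem v'_odd {x : ℕ → E} {f : ℕ → StrongDual 𝕜 E} (hx : CompleteMinimal x f)
    (v : ∀ n, P 𝕜 x n →ₗ[𝕜] P 𝕜 x n) (α : ℕ → 𝕜) {N : ℕ} (hN : ¬ N % 2 = 0) :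
    (v' x f v N (psum x α N) : E) = v (N / 2) (psum x α (N / 2)) +
      (α (jj (N / 2)) - f (jj (N / 2)) (v (N / 2) (psum x α (N / 2)) : E)) •
        (((‖f (jj (N / 2))‖ * ‖x (jj (N / 2))‖)⁻¹ : ℝ) : 𝕜) • x (jj (N / 2)) := by
  unfold v'
  rw [dif_neg hN]
  have hj : jj (N / 2) < N := by
    have := Nat.unpair_left_le (N / 2)
    unfold jj
    omega
  simp only [LinearMap.add_apply, LinearMap.smulRight_apply, LinearMap.comp_apply,
    LinearMap.sub_apply, LinearMap.id_apply, Submodule.coe_add, Submodule.coe_smul,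
    Submodule.subtype_apply, comp_psum hx, ContinuousLinearMap.coe_coe,
    map_sub, coeff_psum hx α hj]

theorem tendsto_of_both {x : ℕ → E} {f : ℕ → StrongDual 𝕜 E} (hx : CompleteMinimal x f)
    (v : ∀ n, P 𝕜 x n →ₗ[𝕜] P 𝕜 x n)
    (hv : ∀ y : E, Tendsto (fun n => (v n (psum x (fun i => f i y) n) : E)) atTop (𝓝 y))
    (y : E) :
    Tendsto (fun N => (v' x f v N (psum x (fun i => f i y) N) : E)) atTop (𝓝 y) := by
  have hdiv : Tendsto (fun N : ℕ => N / 2) atTop atTop :=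
    Nat.tendsto_div_const_atTop (by norm_num)
  have h1 := (tendsto_iff_norm_sub_tendsto_zero.1 (hv y)).comp hdiv
  rw [tendsto_iff_norm_sub_tendsto_zero]
  have h2 : Tendsto (fun N : ℕ => 2 * ‖(v (N / 2) (psum x (fun i => f i y) (N / 2)) : E) - y‖)
      atTop (𝓝 0) := by
    simpa using h1.const_mul 2
  refine squeeze_zero (fun _ => norm_nonneg _) (fun N => ?_) h2
  set w : E := (v (N / 2) (psum x (fun i => f i y) (N / 2))).1 with hw
  by_cases hN : N % 2 = 0
  · rw [v'_even hx v _ hN]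
    have := norm_nonneg (w - y)
    linarith
  · rw [v'_odd hx v _ hN, ← hw]
    have h3 : ‖(f (jj (N / 2)) y - f (jj (N / 2)) w) •
        (((‖f (jj (N / 2))‖ * ‖x (jj (N / 2))‖)⁻¹ : ℝ) : 𝕜) • x (jj (N / 2))‖ ≤ ‖w - y‖ := by
      rw [← map_sub, norm_smul, norm_smul, RCLike.norm_ofReal, abs_of_nonneg (by positivity)]
      have h4 := (f (jj (N / 2))).le_opNorm (y - w)
      rw [norm_sub_rev w y]
      rcases eq_or_lt_of_le (norm_nonneg (x (jj (N / 2)))) with h5 | h5
      · rw [← h5]; simp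
      · rcases eq_or_lt_of_le (norm_nonneg (f (jj (N / 2)))) with h6 | h6
        · rw [← h6]; simp
        · calc ‖f (jj (N / 2)) (y - w)‖ *
              ((‖f (jj (N / 2))‖ * ‖x (jj (N / 2))‖)⁻¹ * ‖x (jj (N / 2))‖)
              = ‖f (jj (N / 2)) (y - w)‖ * ‖f (jj (N / 2))‖⁻¹ := by
                field_simp
            _ ≤ (‖f (jj (N / 2))‖ * ‖y - w‖) * ‖f (jj (N / 2))‖⁻¹ := by gcongr
            _ = ‖y - w‖ := by field_simp
    calc ‖w + (f (jj (N / 2)) y - f (jj (N / 2)) w) •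
        (((‖f (jj (N / 2))‖ * ‖x (jj (N / 2))‖)⁻¹ : ℝ) : 𝕜) • x (jj (N / 2)) - y‖
        = ‖(w - y) + (f (jj (N / 2)) y - f (jj (N / 2)) w) •
        (((‖f (jj (N / 2))‖ * ‖x (jj (N / 2))‖)⁻¹ : ℝ) : 𝕜) • x (jj (N / 2))‖ := by
          congr 1; abel
      _ ≤ ‖w - y‖ + ‖w - y‖ := (norm_add_le _ _).trans (by linarith)
      _ = _ := by ring

theorem x_ne_zero {x : ℕ → E} {f : ℕ → StrongDual 𝕜 E} (hx : CompleteMinimal x f) (j : ℕ) :
    x j ≠ 0 := by
  intro h
  have := hx.biorth j j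
  rw [h, map_zero, if_pos rfl] at this
  exact zero_ne_one this

theorem f_ne_zero {x : ℕ → E} {f : ℕ → StrongDual 𝕜 E} (hx : CompleteMinimal x f) (j : ℕ) :
    f j ≠ 0 := by
  intro h
  have := hx.biorth j j
  rw [h, if_pos rfl] at this
  simp at this

/-- If the modified means of a scalar sequence tend to `y`, then the sequence is the coefficient
sequence of `y`. -/
theorem coeff_unique {x : ℕ → E} {f : ℕ → StrongDual 𝕜 E} (hx : CompleteMinimal x f)
    (v : ∀ n, P 𝕜 x n →ₗ[𝕜] P 𝕜 x n) (y : E) (α : ℕ → 𝕜)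
    (h : Tendsto (fun N => (v' x f v N (psum x α N) : E)) atTop (𝓝 y)) (j : ℕ) :
    α j = f j y := by
  -- the even terms
  have he : Tendsto (fun n => (v n (psum x α n) : E)) atTop (𝓝 y) := by
    have h2 : Tendsto (fun n : ℕ => 2 * n) atTop atTop :=
      tendsto_id.const_mul_atTop' (by norm_num)
    refine (h.comp h2).congr fun n => ?_
    simp only [Function.comp]
    rw [v'_even hx v α (by omega)]
    have : 2 * n / 2 = n := by omega
    rw [this]
  -- the odd terms tested at `j`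
  have hsub : Tendsto (fun m : ℕ => Nat.pair j m) atTop atTop :=
    tendsto_atTop_mono (fun m => Nat.right_le_pair j m) tendsto_id
  have ho : Tendsto (fun m : ℕ => (v' x f v (2 * Nat.pair j m + 1)
      (psum x α (2 * Nat.pair j m + 1)) : E)) atTop (𝓝 y) := by
    have h3 : Tendsto (fun m : ℕ => 2 * Nat.pair j m + 1) atTop atTop :=
      tendsto_atTop_mono (fun m => by omega) hsub
    exact h.comp h3
  have he' := he.comp hsub
  have hd := ho.sub he'
  rw [sub_self] at hd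
  have hd2 : Tendsto (fun m : ℕ => (α j - f j (v (Nat.pair j m) (psum x α (Nat.pair j m)) : E)) •
        (((‖f j‖ * ‖x j‖)⁻¹ : ℝ) : 𝕜) • x j) atTop (𝓝 0) := by
    refine hd.congr fun m => ?_
    simp only [Function.comp]
    rw [v'_odd hx v α (by omega)]
    have h4 : (2 * Nat.pair j m + 1) / 2 = Nat.pair j m := by omega
    have h5 : jj (Nat.pair j m) = j := by simp [jj]
    rw [h4, h5]
    abel
  have h6 : Tendsto (fun m : ℕ => (α j - f j (v (Nat.pair j m) (psum x α (Nat.pair j m)) : E)) •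
        (((‖f j‖ * ‖x j‖)⁻¹ : ℝ) : 𝕜) • x j) atTop
        (𝓝 ((α j - f j y) • (((‖f j‖ * ‖x j‖)⁻¹ : ℝ) : 𝕜) • x j)) := by
    refine Tendsto.smul_const ?_ _
    exact tendsto_const_nhds.sub (((f j).continuous.tendsto y).comp he')
  have h7 := tendsto_nhds_unique h6 hd2
  have h8 : (((‖f j‖ * ‖x j‖)⁻¹ : ℝ) : 𝕜) ≠ 0 := by
    have h9 := norm_pos_iff.2 (f_ne_zero hx j)
    have h10 := norm_pos_iff.2 (x_ne_zero hx j)
    rw [Ne, RCLike.ofReal_eq_zero]
    positivity
  rw [smul_eq_zero, smul_eq_zero] at h7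
  rcases h7 with h7 | h7 | h7
  · exact sub_eq_zero.1 h7
  · exact absurd h7 h8
  · exact absurd h7 (x_ne_zero hx j)

/-- **Main result.** Every operational basis of a Banach space is a generalized summation basis
with respect to suitable endomorphisms. -/
theorem result (𝕜 : Type*) [RCLike 𝕜] (E : Type*) [NormedAddCommGroup E] [NormedSpace 𝕜 E]
    [CompleteSpace E] (x : ℕ → E) (h : IsOperationalBasis 𝕜 x) :
    ∃ v : ∀ n, P 𝕜 x n →ₗ[𝕜] P 𝕜 x n, IsGeneralizedSummationBasis x v := by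
  obtain ⟨f, hx, v, hv⟩ := h
  refine ⟨v' x f v, fun i => ?_, fun y => ?_⟩
  · have h1 := tendsto_of_both hx v hv (x i)
    have h2 : Tendsto (fun n : ℕ => i + 1 + n) atTop atTop :=
      tendsto_atTop_mono (fun n => by rw [id]; omega) tendsto_id
    refine (h1.comp h2).congr fun n => ?_
    simp only [Function.comp]
    congr 2
    apply Subtype.ext
    simp only [psum, hx.biorth, ite_smul, one_smul, zero_smul]
    rw [Finset.sum_ite_eq', if_pos (Finset.mem_range.2 (by omega))]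
  · refine ⟨fun i => f i y, tendsto_of_both hx v hv y, fun α hα => ?_⟩
    funext j
    exact coeff_unique hx v y α hα j

end Pool.Agent.Results.MP_59cc96_an.OperationalIsGenSummation
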